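import Mathlib

namespace Pool.Agent.Results.MP_1aa7fe_lc.No

open Finset

/-- Trajectory given by its turning points. -/
def IsTrajectory (t : ℕ → ℝ) : Prop :=
  t 0 = 0 ∧ (∀ i, 0 ≤ t i) ∧ (∀ i, t (2 * i) < t (2 * i + 1)) ∧ (∀ i, t (2 * i + 2) < t (2 * i + 1))

open Classical in
/-- Probability that a treasure at `d` is detected while moving from the turning point `u` to the
next turning point `v`: one if `d` is the turning point `v`, `p` if `d` is strictly between
`u` and `v`, zero otherwise. -/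
noncomputable def passProb (p u v d : ℝ) : ℝ :=
  if d = v then 1 else if (u < d ∧ d < v) ∨ (v < d ∧ d < u) then p else 0

/-- Time at which the unit-speed searcher is at the turning point `t i`. -/
noncomputable def startTime (t : ℕ → ℝ) (i : ℕ) : ℝ := ∑ l ∈ range i, |t (l + 1) - t l|

/-- Probability that the treasure is not detected during the first `i` moves. -/
noncomputable def missProb (p : ℝ) (t : ℕ → ℝ) (d : ℝ) (i : ℕ) : ℝ :=
  ∏ l ∈ range i, (1 - passProb p (t l) (t (l + 1)) d)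

/-- Probability that the first detection is in move `i`, times the time of that pass. -/
noncomputable def term (p : ℝ) (t : ℕ → ℝ) (d : ℝ) (i : ℕ) : ℝ :=
  passProb p (t i) (t (i + 1)) d * missProb p t d i * (startTime t i + |d - t i|)

noncomputable abbrev a (u v d : ℝ) : ℝ := passProb (2 / 5) u v d

lemma a_mem (u v d : ℝ) : 0 ≤ a u v d ∧ a u v d ≤ 1 := by
  unfold a passProb
  split_ifs <;> norm_num

/-- value of an out-and-back pair of moves -/
noncomputable def G (u z y τ d W : ℝ) : ℝ :=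
  a u z d * (τ + |d - u|) + (1 - a u z d) *
    (a z y d * (τ + (z - u) + |d - z|) + (1 - a z y d) * W)

lemma G_mono {u z y τ d W W' : ℝ} (h : W ≤ W') : G u z y τ d W ≤ G u z y τ d W' := by
  unfold G
  have h1 := a_mem u z d
  have h2 := a_mem z y d
  have : (1 - a z y d) * W ≤ (1 - a z y d) * W' := mul_le_mul_of_nonneg_left h (by linarith)
  have : (1 - a u z d) * (a z y d * (τ + (z - u) + |d - z|) + (1 - a z y d) * W) ≤
      (1 - a u z d) * (a z y d * (τ + (z - u) + |d - z|) + (1 - a z y d) * W') :=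
    mul_le_mul_of_nonneg_left (by linarith) (by linarith)
  linarith

lemma a_out {u z d : ℝ} (h1 : u < d) (h2 : d < z) : a u z d = 2 / 5 := by
  unfold a passProb
  rw [if_neg h2.ne, if_pos (Or.inl ⟨h1, h2⟩)]

lemma a_in {z y d : ℝ} (h1 : y < d) (h2 : d < z) : a z y d = 2 / 5 := by
  unfold a passProb
  rw [if_neg h1.ne', if_pos (Or.inr ⟨h1, h2⟩)]

lemma a_end (u z : ℝ) : a u z z = 1 := by
  unfold a passProb
  rw [if_pos rfl]

lemma a_zero {u v d : ℝ} (h : (d ≤ u ∧ d < v) ∨ (u ≤ d ∧ v < d)) : a u v d = 0 := by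
  unfold a passProb
  rcases h with ⟨h1, h2⟩ | ⟨h1, h2⟩
  · rw [if_neg h2.ne, if_neg]
    rintro (⟨h3, _⟩ | ⟨h3, _⟩) <;> linarith
  · rw [if_neg h2.ne', if_neg]
    rintro (⟨_, h3⟩ | ⟨_, h3⟩) <;> linarith

lemma G_hi {u z y τ d W : ℝ} (hu : u < z) (hy : y < z) (hd : z < d) : G u z y τ d W = W := by
  unfold G
  rw [a_zero (Or.inr ⟨by linarith, hd⟩), a_zero (Or.inr ⟨hd.le, by linarith⟩)]
  ring

lemma G_lo {u z y τ d W : ℝ} (hu : u < z) (hy : y < z) (hd : d ≤ u) (hd' : d < y) :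
    G u z y τ d W = W := by
  unfold G
  rw [a_zero (Or.inl ⟨hd, by linarith⟩), a_zero (Or.inl ⟨by linarith, hd'⟩)]
  ring

lemma G_both {u z y τ d W : ℝ} (hy : y < d) (hu : u < d) (hd : d ≤ z)
    (hW : τ + 2 * z - u - y ≤ W) :
    G u z y τ d W ≤ 2 / 5 * (τ + d - u) + 6 / 25 * (τ + 2 * z - u - d) + 9 / 25 * W := by
  unfold G
  rcases hd.eq_or_lt with h | h
  · subst h
    rw [a_end, abs_of_pos (by linarith)]
    linarith
  · rw [a_out hu h, a_in hy h, abs_of_pos (by linarith), abs_of_neg (by linarith)]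
    linarith

lemma G_out {u z y τ d W : ℝ} (hy : y < z) (hu : u < d) (hd : d ≤ y)
    (hW : τ + 2 * z - u - y ≤ W) :
    G u z y τ d W ≤ 2 / 5 * (τ + d - u) + 3 / 5 * W := by
  unfold G
  rw [a_out hu (by linarith), abs_of_pos (by linarith), abs_of_neg (by linarith)]
  rcases hd.eq_or_lt with h | h
  · subst h
    rw [a_end]
    linarith
  · rw [a_zero (Or.inl ⟨by linarith, h⟩)]
    linarith

lemma G_in {u z y τ d W : ℝ} (hu : u < z) (hy : y < d) (hd : d ≤ u) :
    G u z y τ d W = 2 / 5 * (τ + 2 * z - u - d) + 3 / 5 * W := by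
  unfold G
  rw [a_zero (Or.inl ⟨hd, by linarith⟩), a_in hy (by linarith), abs_of_neg (a := d - z) (by linarith)]
  ring

/-- value of a whole cycle -/
noncomputable def cyc (s τ d W : ℝ) : ℝ :=
  G 0 (123 / 250 * s) (51 / 125 * s) τ d
    (G (51 / 125 * s) (17 / 25 * s) (3 / 5 * s) (τ + 72 / 125 * s) d
      (G (3 / 5 * s) s 0 (τ + 116 / 125 * s) d W))

lemma cyc_hi {s τ d W : ℝ} (hs : 0 < s) (hd : s < d) : cyc s τ d W = W := by
  unfold cyc
  rw [G_hi (by linarith) (by linarith) (by linarith), G_hi (by linarith) (by linarith) (by linarith),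
    G_hi (by linarith) (by linarith) (by linarith)]

lemma cyc_A {s τ d W : ℝ} (hs : 0 < s) (h0 : 0 < d) (hd : d ≤ 51 / 125 * s)
    (hW : τ + 291 / 125 * s ≤ W) :
    cyc s τ d W ≤ 2 / 5 * (τ + d) + 6 / 25 * (τ + 291 / 125 * s - d) + 9 / 25 * W := by
  unfold cyc
  rw [G_lo (u := 51 / 125 * s) (by linarith) (by linarith) hd (by linarith),
    G_in (by linarith) h0 (by linarith)]
  refine (G_out (by linarith) h0 hd (by linarith)).trans (by linarith)

lemma cyc_B {s τ d W : ℝ} (hs : 0 < s) (h0 : 51 / 125 * s < d) (hd : d ≤ 123 / 250 * s)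
    (hW : τ + 291 / 125 * s ≤ W) :
    cyc s τ d W ≤ 2 / 5 * (τ + d) + 6 / 25 * (τ + 123 / 125 * s - d) +
      18 / 125 * (τ + 21 / 125 * s + d) + 54 / 625 * (τ + 291 / 125 * s - d) + 81 / 625 * W := by
  unfold cyc
  rw [G_in (u := 3 / 5 * s) (by linarith) (by linarith) (by linarith)]
  refine (G_mono (G_out (by linarith) h0 (by linarith) (by linarith))).trans ?_
  refine (G_both h0 (by linarith) hd (by linarith)).trans (by linarith)

lemma cyc_C {s τ d W : ℝ} (hs : 0 < s) (h0 : 123 / 250 * s < d) (hd : d ≤ 3 / 5 * s)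
    (hW : τ + 291 / 125 * s ≤ W) :
    cyc s τ d W ≤ 2 / 5 * (τ + 21 / 125 * s + d) + 6 / 25 * (τ + 291 / 125 * s - d) +
      9 / 25 * W := by
  unfold cyc
  rw [G_in (u := 3 / 5 * s) (by linarith) (by linarith) (by linarith),
    G_hi (u := 0) (by linarith) (by linarith) h0]
  refine (G_out (by linarith) (by linarith) hd (by linarith)).trans (by linarith)

lemma cyc_D {s τ d W : ℝ} (hs : 0 < s) (h0 : 3 / 5 * s < d) (hd : d ≤ 17 / 25 * s)
    (hW : τ + 291 / 125 * s ≤ W) :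
    cyc s τ d W ≤ 2 / 5 * (τ + 21 / 125 * s + d) + 6 / 25 * (τ + 191 / 125 * s - d) +
      18 / 125 * (τ + 41 / 125 * s + d) + 54 / 625 * (τ + 291 / 125 * s - d) + 81 / 625 * W := by
  unfold cyc
  rw [G_hi (u := 0) (by linarith) (by linarith) (by linarith)]
  refine (G_mono (G_both (by linarith) h0 (by linarith) (by linarith))).trans ?_
  refine (G_both h0 (by linarith) hd (by linarith)).trans (by linarith)

lemma cyc_E {s τ d W : ℝ} (hs : 0 < s) (h0 : 17 / 25 * s < d) (hd : d ≤ s)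
    (hW : τ + 291 / 125 * s ≤ W) :
    cyc s τ d W ≤ 2 / 5 * (τ + 41 / 125 * s + d) + 6 / 25 * (τ + 291 / 125 * s - d) +
      9 / 25 * W := by
  unfold cyc
  rw [G_hi (u := 0) (by linarith) (by linarith) (by linarith),
    G_hi (u := 51 / 125 * s) (by linarith) (by linarith) h0]
  refine (G_both (by linarith) (by linarith) hd (by linarith)).trans (by linarith)

noncomputable def c (j : ℕ) : ℝ :=
  if j = 0 then 0 else if j = 1 then 123 / 250 else if j = 2 then 51 / 125 else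
  if j = 3 then 17 / 25 else if j = 4 then 3 / 5 else 1

noncomputable def T (i : ℕ) : ℝ := c (i % 6) * (5 / 3) ^ (i / 6)

lemma T_eq (k j : ℕ) (hj : j < 6) : T (6 * k + j) = c j * (5 / 3) ^ k := by
  unfold T
  have h1 : (6 * k + j) % 6 = j := by omega
  have h2 : (6 * k + j) / 6 = k := by omega
  rw [h1, h2]

lemma T0 (k : ℕ) : T (6 * k) = 0 := by
  have := T_eq k 0 (by norm_num); simpa [c] using this
lemma T1 (k : ℕ) : T (6 * k + 1) = 123 / 250 * (5 / 3) ^ k := by
  have := T_eq k 1 (by norm_num); simpa [c] using this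
lemma T2 (k : ℕ) : T (6 * k + 1 + 1) = 51 / 125 * (5 / 3) ^ k := by
  have := T_eq k 2 (by norm_num); simpa [c] using this
lemma T3 (k : ℕ) : T (6 * k + 1 + 1 + 1) = 17 / 25 * (5 / 3) ^ k := by
  have := T_eq k 3 (by norm_num); simpa [c] using this
lemma T4 (k : ℕ) : T (6 * k + 1 + 1 + 1 + 1) = 3 / 5 * (5 / 3) ^ k := by
  have := T_eq k 4 (by norm_num); simpa [c] using this
lemma T5 (k : ℕ) : T (6 * k + 1 + 1 + 1 + 1 + 1) = (5 / 3) ^ k := by
  have := T_eq k 5 (by norm_num); simpa [c] using this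
lemma T6 (k : ℕ) : T (6 * k + 1 + 1 + 1 + 1 + 1 + 1) = 0 := by
  have := T0 (k + 1)
  rwa [show 6 * (k + 1) = 6 * k + 1 + 1 + 1 + 1 + 1 + 1 by ring] at this

lemma st_succ (i : ℕ) : startTime T (i + 1) = startTime T i + |T (i + 1) - T i| := by
  unfold startTime; rw [sum_range_succ]

lemma miss_succ (d : ℝ) (i : ℕ) : missProb (2 / 5) T d (i + 1) =
    missProb (2 / 5) T d i * (1 - a (T i) (T (i + 1)) d) := by
  unfold missProb; rw [prod_range_succ]

lemma miss_nonneg (d : ℝ) (i : ℕ) : 0 ≤ missProb (2 / 5) T d i := by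
  unfold missProb
  exact prod_nonneg fun l _ => by linarith [(a_mem (T l) (T (l + 1)) d).2]

lemma st_nonneg (i : ℕ) : 0 ≤ startTime T i := sum_nonneg fun _ _ => abs_nonneg _

lemma term_nonneg (d : ℝ) (i : ℕ) : 0 ≤ term (2 / 5) T d i := by
  unfold term
  exact mul_nonneg (mul_nonneg (a_mem _ _ _).1 (miss_nonneg d i))
    (add_nonneg (st_nonneg i) (abs_nonneg _))

noncomputable def S (d : ℝ) (N : ℕ) : ℝ := ∑ i ∈ range N, term (2 / 5) T d i

lemma pair (d W : ℝ) (i : ℕ) (h : T i < T (i + 1)) :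
    S d (i + 1 + 1) + missProb (2 / 5) T d (i + 1 + 1) * W =
      S d i + missProb (2 / 5) T d i *
        G (T i) (T (i + 1)) (T (i + 1 + 1)) (startTime T i) d W := by
  have hS : ∀ N, S d (N + 1) = S d N + a (T N) (T (N + 1)) d * missProb (2 / 5) T d N *
      (startTime T N + |d - T N|) := fun N => by
    unfold S; rw [sum_range_succ]; rfl
  rw [hS, hS, miss_succ d (i + 1), miss_succ d i, st_succ, abs_of_pos (a := T (i + 1) - T i) (by linarith)]
  unfold G
  ring

lemma st2 (k : ℕ) : startTime T (6 * k + 1 + 1) = startTime T (6 * k) + 72 / 125 * (5 / 3) ^ k := by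
  have hs : (0 : ℝ) < (5 / 3) ^ k := by positivity
  rw [st_succ, st_succ, T2, T1, T0, abs_of_pos (by linarith), abs_of_neg (by linarith)]
  ring

lemma st4 (k : ℕ) : startTime T (6 * k + 1 + 1 + 1 + 1) =
    startTime T (6 * k) + 116 / 125 * (5 / 3) ^ k := by
  have hs : (0 : ℝ) < (5 / 3) ^ k := by positivity
  rw [st_succ, st_succ, st2, T4, T3, T2, abs_of_pos (by linarith), abs_of_neg (by linarith)]
  ring

lemma st6 (k : ℕ) : startTime T (6 * (k + 1)) =
    startTime T (6 * k) + 291 / 125 * (5 / 3) ^ k := by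
  have hs : (0 : ℝ) < (5 / 3) ^ k := by positivity
  rw [show 6 * (k + 1) = 6 * k + 1 + 1 + 1 + 1 + 1 + 1 by ring,
    st_succ, st_succ, st4, T6, T5, T4, abs_of_pos (by linarith), abs_of_neg (by linarith)]
  ring

lemma st_le (k : ℕ) : startTime T (6 * k) ≤ 873 / 250 * (5 / 3) ^ k := by
  induction k with
  | zero => simp [startTime]; norm_num
  | succ k ih => rw [st6, pow_succ]; linarith

lemma cycle (d W : ℝ) (k : ℕ) :
    S d (6 * (k + 1)) + missProb (2 / 5) T d (6 * (k + 1)) * W =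
      S d (6 * k) + missProb (2 / 5) T d (6 * k) * cyc ((5 / 3) ^ k) (startTime T (6 * k)) d W := by
  have hs : (0 : ℝ) < (5 / 3) ^ k := by positivity
  rw [show 6 * (k + 1) = 6 * k + 1 + 1 + 1 + 1 + 1 + 1 by ring,
    pair d W _ (by rw [T4, T5]; linarith), pair d _ _ (by rw [T2, T3]; linarith),
    pair d _ _ (by rw [T0, T1]; linarith), st4, st2, T6, T5, T4, T3, T2, T1, T0]
  rfl

lemma step {d W W' M : ℝ} {k : ℕ} (h : S d (6 * k) + missProb (2 / 5) T d (6 * k) * W ≤ M)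
    (hc : cyc ((5 / 3) ^ k) (startTime T (6 * k)) d W' ≤ W) :
    S d (6 * (k + 1)) + missProb (2 / 5) T d (6 * (k + 1)) * W' ≤ M := by
  rw [cycle]
  have := mul_le_mul_of_nonneg_left hc (miss_nonneg d (6 * k))
  linarith

lemma bound (d : ℝ) (hd : 1 ≤ d) (N : ℕ) : S d N ≤ 449 / 50 * d := by
  have hex : ∃ n : ℕ, d ≤ (5 / 3 : ℝ) ^ n := by
    obtain ⟨n, hn⟩ := pow_unbounded_of_one_lt d (show (1 : ℝ) < 5 / 3 by norm_num)
    exact ⟨n, hn.le⟩
  classical
  obtain ⟨n, hn, hlt⟩ : ∃ n : ℕ, d ≤ (5 / 3 : ℝ) ^ n ∧ ∀ k < n, (5 / 3 : ℝ) ^ k < d :=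
    ⟨Nat.find hex, Nat.find_spec hex, fun k hk => not_le.1 (Nat.find_min hex hk)⟩
  have hlow : 3 / 5 * (5 / 3 : ℝ) ^ n < d := by
    rcases n with _ | m
    · simp; linarith
    · have := hlt m (Nat.lt_succ_self m)
      rw [pow_succ]; linarith
  have h0 : ∀ k ≤ n, S d (6 * k) + missProb (2 / 5) T d (6 * k) * (449 / 50 * d) ≤ 449 / 50 * d := by
    intro k hk
    induction k with
    | zero => simp [S, missProb]
    | succ k ih =>
      refine step (ih (by omega)) ?_
      rw [cyc_hi (by positivity) (hlt k (by omega))]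
  have hs : (0 : ℝ) < (5 / 3) ^ n := by positivity
  have h2 : S d (6 * (n + 1 + 1)) + missProb (2 / 5) T d (6 * (n + 1 + 1)) *
      (873 / 125 * (5 / 3) ^ (n + 1 + 1) + 1 / 4 * d) ≤ 449 / 50 * d := by
    have e0 := st_le n
    have e1 := st_le (n + 1)
    have p1 : (5 / 3 : ℝ) ^ (n + 1) = 5 / 3 * (5 / 3) ^ n := by ring
    have p2 : (5 / 3 : ℝ) ^ (n + 1 + 1) = 25 / 9 * (5 / 3) ^ n := by ring
    obtain ⟨s, hs'⟩ : ∃ s : ℝ, s = (5 / 3) ^ n := ⟨_, rfl⟩
    have hn0 := h0 n le_rfl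
    rcases le_or_gt d (17 / 25 * (5 / 3) ^ n) with h1 | h1
    · refine step (W := 291 / 25 * (5 / 3) ^ n + 1 / 4 * d) (step hn0 ?_) ?_
      · refine (cyc_D hs hlow h1 (by linarith)).trans (by linarith)
      · refine (cyc_A (by positivity) (by linarith) (by linarith) (by linarith)).trans (by linarith)
    rcases le_or_gt d (41 / 50 * (5 / 3) ^ n) with h3 | h3
    · refine step (W := 835 / 100 * (5 / 3) ^ n + 1 / 4 * d) (step hn0 ?_) ?_
      · refine (cyc_E hs h1 hn (by linarith)).trans (by linarith)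
      · refine (cyc_B (by positivity) (by linarith) (by linarith) (by linarith)).trans (by linarith)
    · refine step (W := 11752 / 1000 * (5 / 3) ^ n + 1 / 4 * d) (step hn0 ?_) ?_
      · refine (cyc_E hs h1 hn (by linarith)).trans (by linarith)
      · refine (cyc_C (by positivity) (by linarith) (by linarith) (by linarith)).trans (by linarith)
  have h3 : ∀ k, n + 1 + 1 ≤ k → S d (6 * k) + missProb (2 / 5) T d (6 * k) *
      (873 / 125 * (5 / 3) ^ k + 1 / 4 * d) ≤ 449 / 50 * d := by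
    intro k hk
    induction k, hk using Nat.le_induction with
    | base => exact h2
    | succ k hk ih =>
      refine step ih ?_
      have e0 := st_le k
      have p1 : (5 / 3 : ℝ) ^ (k + 1) = 5 / 3 * (5 / 3) ^ k := by ring
      have hk' : (5 / 3 : ℝ) ^ (n + 1 + 1) ≤ (5 / 3) ^ k := pow_le_pow_right₀ (by norm_num) hk
      have p2 : (5 / 3 : ℝ) ^ (n + 1 + 1) = 25 / 9 * (5 / 3) ^ n := by ring
      refine (cyc_A (by positivity) (by linarith) (by linarith) (by linarith)).trans (by linarith)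
  have h4 := h3 (N + n + 2) (by omega)
  have h5 : S d N ≤ S d (6 * (N + n + 2)) :=
    sum_le_sum_of_subset_of_nonneg (range_mono (by omega)) fun i _ _ => term_nonneg d i
  have h6 : 0 ≤ missProb (2 / 5) T d (6 * (N + n + 2)) *
      (873 / 125 * (5 / 3) ^ (N + n + 2) + 1 / 4 * d) :=
    mul_nonneg (miss_nonneg _ _) (by positivity)
  linarith

lemma traj : IsTrajectory T := by
  refine ⟨T0 0, fun i => ?_, fun i => ?_, fun i => ?_⟩
  · unfold T c
    split_ifs <;> positivity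
  · obtain ⟨k, j, hj, rfl⟩ : ∃ k j, j < 3 ∧ i = 3 * k + j :=
      ⟨i / 3, i % 3, Nat.mod_lt _ (by norm_num), by omega⟩
    have hs : (0 : ℝ) < (5 / 3) ^ k := by positivity
    interval_cases j
    · rw [show 2 * (3 * k + 0) = 6 * k by ring, T0, T1]; linarith
    · rw [show 2 * (3 * k + 1) = 6 * k + 1 + 1 by ring, T2, T3]; linarith
    · rw [show 2 * (3 * k + 2) = 6 * k + 1 + 1 + 1 + 1 by ring, T4, T5]; linarith
  · obtain ⟨k, j, hj, rfl⟩ : ∃ k j, j < 3 ∧ i = 3 * k + j :=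
      ⟨i / 3, i % 3, Nat.mod_lt _ (by norm_num), by omega⟩
    have hs : (0 : ℝ) < (5 / 3) ^ k := by positivity
    interval_cases j
    · rw [show 2 * (3 * k + 0) + 2 = 6 * k + 1 + 1 by ring, show 2 * (3 * k + 0) = 6 * k by ring,
        T2, T1]; linarith
    · rw [show 2 * (3 * k + 1) + 2 = 6 * k + 1 + 1 + 1 + 1 by ring,
        show 2 * (3 * k + 1) = 6 * k + 1 + 1 by ring, T4, T3]; linarith
    · rw [show 2 * (3 * k + 2) + 2 = 6 * k + 1 + 1 + 1 + 1 + 1 + 1 by ring,
        show 2 * (3 * k + 2) = 6 * k + 1 + 1 + 1 + 1 by ring, T6, T5]; linarith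

theorem result : ∃ p : ℝ, 0 < p ∧ p < 1 ∧ ∃ t : ℕ → ℝ, IsTrajectory t ∧ ∃ C : ℝ, C < 4 - p ∧
    ∀ d : ℝ, 1 ≤ d → (∀ N : ℕ, ∃ i, N ≤ i ∧ t i < d ∧ d < t (i + 1)) ∧
      Summable (term p t d) ∧ p * (∑' i, term p t d i) / d ≤ C := by
  refine ⟨2 / 5, by norm_num, by norm_num, T, traj, 449 / 125, by norm_num, fun d hd => ?_⟩
  refine ⟨fun N => ?_, summable_of_sum_range_le (term_nonneg d) (bound d hd), ?_⟩
  · obtain ⟨n, hn⟩ := pow_unbounded_of_one_lt (3 * d) (show (1 : ℝ) < 5 / 3 by norm_num)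
    refine ⟨6 * (N + n), by omega, by rw [T0]; linarith, ?_⟩
    rw [T1]
    have : (5 / 3 : ℝ) ^ n ≤ (5 / 3) ^ (N + n) := pow_le_pow_right₀ (by norm_num) (by omega)
    linarith
  · have := Real.tsum_le_of_sum_range_le (term_nonneg d) (bound d hd)
    rw [div_le_iff₀ (by linarith)]
    linarith

end Pool.Agent.Results.MP_1aa7fe_lc.No
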